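import Pool.Agent.H40.Onto

set_option autoImplicit false

namespace Pool.Agent.Results.MP_36ff06_lc.EmbedsInGrz

open Pool.Agent.H40.Onto

/-- Some modal formula `F(x, y)` gives a translation embedding `L₁` in `Grz`. -/
theorem result : ∃ F : MF (Fin 2), ∀ p : ℕ → ℕ, Function.Injective p →
    ∀ φ : LF, L1 φ ↔ Grz (tr p F φ) :=
  ⟨FF (.var 0) (.var 1), grz_embeds⟩

end Pool.Agent.Results.MP_36ff06_lc.EmbedsInGrz
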